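import Mathlib

set_option autoImplicit false

/-!
# Compact semigroups of nonexpansive maps: orbits are totally bounded
-/

open Set Filter Topology

namespace Pool.Agent.L7h51.WapFix

variable {X : Type*} [TopologicalSpace X]

/-- A closed nonempty semigroup (under composition) of continuous maps, where the maps form a closed
set for the topology of pointwise convergence. -/
structure IsCSemi (G : Set (X → X)) : Prop where
  closed : IsClosed G
  nonempty : G.Nonempty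
  cont : ∀ g ∈ G, Continuous g
  comp : ∀ g ∈ G, ∀ h ∈ G, g ∘ h ∈ G

lemma continuous_comp_right (h : X → X) : Continuous fun g : X → X => g ∘ h :=
  continuous_pi fun x => continuous_apply (h x)

lemma continuous_comp_left (g : X → X) (hg : Continuous g) : Continuous fun h : X → X => g ∘ h :=
  continuous_pi fun x => hg.comp (continuous_apply x)

/-- The closure of a semigroup of maps is a semigroup if it consists of continuous maps. -/
lemma isCSemi_closure (Γ : Set (X → X)) (hne : Γ.Nonempty) (hc : ∀ g ∈ Γ, ∀ h ∈ Γ, g ∘ h ∈ Γ)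
    (hcont : ∀ g ∈ closure Γ, Continuous g) : IsCSemi (closure Γ) := by
  refine ⟨isClosed_closure, hne.closure, hcont, ?_⟩
  have h1 : ∀ g ∈ Γ, ∀ h ∈ closure Γ, g ∘ h ∈ closure Γ := by
    intro g hg h hh
    have h2 := image_closure_subset_closure_image (s := Γ)
      (continuous_comp_left g (hcont g (subset_closure hg)))
    have h3 : g ∘ h ∈ closure ((fun h : X → X => g ∘ h) '' Γ) := h2 ⟨h, hh, rfl⟩
    refine closure_mono ?_ h3
    rintro _ ⟨k, hk, rfl⟩
    exact hc g hg k hk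
  intro g hg h hh
  have h2 := image_closure_subset_closure_image (s := Γ) (continuous_comp_right h)
  have h3 : g ∘ h ∈ closure ((fun g : X → X => g ∘ h) '' Γ) := h2 ⟨g, hg, rfl⟩
  refine closure_minimal ?_ isClosed_closure h3
  rintro _ ⟨k, hk, rfl⟩
  exact h1 k hk h hh

variable [CompactSpace X] [T2Space X]

/-- If all maps of the semigroup map `F` onto itself, they are invertible on `F`. -/
lemma exists_inverse {G : Set (X → X)} (hG : IsCSemi G) {F : Set X} (hF : ∀ g ∈ G, g '' F = F)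
    (g : X → X) (hg : g ∈ G) : ∃ t ∈ G, ∀ x ∈ F, t (g x) = x := by
  let tsp : TopologicalSpace (Function.End X) := inferInstanceAs (TopologicalSpace (X → X))
  have ht2 : T2Space (Function.End X) := inferInstanceAs (T2Space (X → X))
  let N : Set (Function.End X) := (fun t : X → X => t ∘ g) '' G
  have hN1 : N.Nonempty := hG.nonempty.image _
  have hGc : IsCompact G := hG.closed.isCompact
  have hN2 : IsCompact N := hGc.image (continuous_comp_right g)
  have hcm : ∀ r : Function.End X, Continuous (· * r) := fun r => continuous_comp_right (X := X) r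
  obtain ⟨f, ⟨t, ht, htf⟩, hff⟩ := exists_idempotent_in_compact_subsemigroup hcm N hN1 hN2 (by
    rintro _ ⟨t, ht, rfl⟩ _ ⟨t', ht', rfl⟩
    exact ⟨t ∘ g ∘ t', hG.comp t ht _ (hG.comp g hg t' ht'), rfl⟩)
  have hff' : ∀ x, t (g (t (g x))) = t (g x) := by
    intro x
    have h1 := congrFun hff x
    rw [← htf] at h1
    exact h1
  refine ⟨t, ht, fun x hx => ?_⟩
  have h2 : t ∘ g ∈ G := hG.comp t ht g hg
  have h3 : x ∈ (t ∘ g) '' F := by rw [hF _ h2]; exact hx
  obtain ⟨y, -, rfl⟩ := h3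
  exact hff' y

/-- In an orbit one can solve `g y' = y`. -/
lemma orbit_surj {G : Set (X → X)} (hG : IsCSemi G) {F : Set X} (hF : ∀ g ∈ G, g '' F = F)
    {x : X} (hx : x ∈ F) {g h : X → X} (hg : g ∈ G) (hh : h ∈ G) :
    ∃ k ∈ G, g (k x) = h x := by
  obtain ⟨t, ht, ht1⟩ := exists_inverse hG hF g hg
  have hhx : h x ∈ F := by rw [← hF h hh]; exact ⟨x, hx, rfl⟩
  have h1 : h x ∈ g '' F := by rw [hF g hg]; exact hhx
  obtain ⟨w, hw, hw2⟩ := h1
  refine ⟨t ∘ h, hG.comp t ht h hh, ?_⟩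
  change g (t (h x)) = h x
  rw [← hw2, ht1 w hw]

/-- compositions of finite sequences of maps -/
def cmp (g : ℕ → X → X) : List ℕ → X → X
  | [] => id
  | n :: l => g n ∘ cmp g l

omit [TopologicalSpace X] [CompactSpace X] [T2Space X] in
lemma cmp_append (g : ℕ → X → X) (l l' : List ℕ) : cmp g (l ++ l') = cmp g l ∘ cmp g l' := by
  induction l with
  | nil => rfl
  | cons n l ih => rw [List.cons_append, cmp, cmp, ih]; rfl

omit [CompactSpace X] [T2Space X] in
lemma cmp_mem {G : Set (X → X)} (hG : IsCSemi G) (g : ℕ → X → X) (hg : ∀ n, g n ∈ G)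
    (l : List ℕ) : ∀ n, cmp g (n :: l) ∈ G := by
  induction l with
  | nil => intro n; exact hg n
  | cons m l ih => intro n; exact hG.comp _ (hg n) _ (ih m)

/-- **Total boundedness of orbits.** -/
theorem orbit_tb {G : Set (X → X)} (hG : IsCSemi G) {F : Set X} (hF : ∀ g ∈ G, g '' F = F)
    (d : X → X → ℝ) (hsymm : ∀ x y, d x y = d y x)
    (hne : ∀ g ∈ G, ∀ x y, d (g x) (g y) ≤ d x y)
    (hsep : ∀ A : Set X, A.Countable → ∀ ε > 0, ∃ 𝒟 : Set (Set X), 𝒟.Countable ∧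
      (∀ B ∈ 𝒟, IsClosed B ∧ ∀ x ∈ B, ∀ y ∈ B, d x y ≤ ε) ∧ closure A ⊆ ⋃₀ 𝒟)
    {x : X} (hx : x ∈ F) {ε : ℝ} (hε : 0 < ε) :
    ∃ N : Finset X, (∀ z ∈ N, ∃ g ∈ G, z = g x) ∧ ∀ g ∈ G, ∃ z ∈ N, d (g x) z < ε := by
  classical
  by_contra hcon
  push Not at hcon
  -- a separated sequence
  obtain ⟨g, hg, hgd⟩ := exists_seq_of_forall_finset_exists (α := X → X) (fun g => g ∈ G)
    (fun g h => ε ≤ d (g x) (h x)) (by
      intro s hs
      obtain ⟨h, hh, hd⟩ := hcon (s.image fun g => g x) (by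
        intro z hz
        obtain ⟨g, hg, rfl⟩ := Finset.mem_image.1 hz
        exact ⟨g, hs g hg, rfl⟩)
      refine ⟨h, hh, fun g hg => ?_⟩
      rw [hsymm]
      exact hd _ (Finset.mem_image.2 ⟨g, hg, rfl⟩))
  -- the closed semigroup generated by the sequence
  let Γ : Set (X → X) := range fun q : ℕ × List ℕ => cmp g (q.1 :: q.2)
  have hΓG : Γ ⊆ G := by
    rintro _ ⟨⟨n, l⟩, rfl⟩
    exact cmp_mem hG g hg l n
  have hclG : closure Γ ⊆ G := closure_minimal hΓG hG.closed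
  have hG0 : IsCSemi (closure Γ) := by
    refine isCSemi_closure Γ ⟨_, ⟨(0, []), rfl⟩⟩ ?_ fun g hg => hG.cont g (hclG hg)
    rintro _ ⟨⟨n, l⟩, rfl⟩ _ ⟨⟨m, l'⟩, rfl⟩
    refine ⟨(n, l ++ m :: l'), ?_⟩
    change cmp g ((n :: l) ++ (m :: l')) = _
    rw [cmp_append]
  have hF0 : ∀ g ∈ closure Γ, g '' F = F := fun g hg => hF g (hclG hg)
  have hgn : ∀ n, g n ∈ closure Γ := fun n => subset_closure ⟨(n, []), rfl⟩
  -- the orbit
  let F0 : Set X := (fun h : X → X => h x) '' closure Γ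
  have hev : Continuous fun h : X → X => h x := continuous_apply x
  have hF0c : IsCompact F0 := (hG0.closed.isCompact).image hev
  have hF0F : F0 ⊆ F := by
    rintro _ ⟨h, hh, rfl⟩
    rw [← hF0 h hh]
    exact ⟨x, hx, rfl⟩
  have hF0cl : F0 ⊆ closure ((fun h : X → X => h x) '' Γ) :=
    image_closure_subset_closure_image hev
  obtain ⟨𝒟, h𝒟c, h𝒟, hcov⟩ := hsep ((fun h : X → X => h x) '' Γ)
    ((countable_range _).image _) (ε / 2) (half_pos hε)
  -- Baire
  have hF0cs : CompactSpace F0 := isCompact_iff_compactSpace.1 hF0c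
  have hF0ne : Nonempty F0 := ⟨⟨g 0 x, g 0, hgn 0, rfl⟩⟩
  have h𝒟cc : Countable 𝒟 := h𝒟c.to_subtype
  obtain ⟨B, hB⟩ := nonempty_interior_of_iUnion_of_closed (X := F0) (ι := 𝒟)
    (f := fun B => Subtype.val ⁻¹' (B : Set X))
    (fun B => (h𝒟 B B.2).1.preimage continuous_subtype_val) (by
      rw [eq_univ_iff_forall]
      rintro ⟨z, hz⟩
      obtain ⟨B, hB, hzB⟩ := hcov (hF0cl hz)
      exact mem_iUnion.2 ⟨⟨B, hB⟩, hzB⟩)
  obtain ⟨V, hVo, hVB⟩ := isOpen_induced_iff.1 (isOpen_interior (s := (Subtype.val ⁻¹' (B : Set X) : Set F0)))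
  obtain ⟨⟨u, hu0⟩, hu⟩ := hB
  have huV : u ∈ V := by
    have : (⟨u, hu0⟩ : F0) ∈ Subtype.val ⁻¹' V := by rw [hVB]; exact hu
    exact this
  have hVB' : ∀ z ∈ F0, z ∈ V → z ∈ (B : Set X) := by
    intro z hz hzV
    have h1 : (⟨z, hz⟩ : F0) ∈ Subtype.val ⁻¹' V := hzV
    rw [hVB] at h1
    have h2 : (⟨z, hz⟩ : F0) ∈ (Subtype.val ⁻¹' (B : Set X) : Set F0) := interior_subset h1
    exact h2
  obtain ⟨s2, hs2, hs2u⟩ := hu0
  -- the translates of `V` cover
  have hcover : F0 ⊆ ⋃ s : closure Γ, (s : X → X) ⁻¹' V := by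
    rintro z ⟨s1, hs1, rfl⟩
    obtain ⟨t, ht, ht1⟩ := exists_inverse hG0 hF0 s1 hs1
    refine mem_iUnion.2 ⟨⟨s2 ∘ t, hG0.comp s2 hs2 t ht⟩, ?_⟩
    change s2 (t (s1 x)) ∈ V
    rw [ht1 x hx]
    have : s2 x = u := hs2u
    rw [this]
    exact huV
  obtain ⟨T, hT⟩ := hF0c.elim_finite_subcover (fun s : closure Γ => (s : X → X) ⁻¹' V)
    (fun s => hVo.preimage (hG0.cont s s.2)) hcover
  have hmem : ∀ n, ∃ s : T, (s.1 : X → X) (g n x) ∈ V := by
    intro n
    have h1 : g n x ∈ F0 := ⟨g n, hgn n, rfl⟩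
    obtain ⟨s, hs⟩ := mem_iUnion.1 (hT h1)
    obtain ⟨hsT, hs2⟩ := mem_iUnion.1 hs
    exact ⟨⟨s, hsT⟩, hs2⟩
  choose c hc using hmem
  obtain ⟨n, m, hnm, hcnm⟩ := Finite.exists_ne_map_eq_of_infinite c
  have hkey : ∀ n m : ℕ, n < m → c n = c m → False := by
    intro n m hnm hcnm
    obtain ⟨t, ht, ht1⟩ := exists_inverse hG0 hF0 ((c n).1 : X → X) (c n).1.2
    have hmF : ∀ k, g k x ∈ F := fun k => hF0F ⟨g k, hgn k, rfl⟩
    have hsF0 : ∀ k, ((c n).1 : X → X) (g k x) ∈ F0 := fun k =>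
      ⟨(c n).1 ∘ g k, hG0.comp _ (c n).1.2 _ (hgn k), rfl⟩
    have h1 : ((c n).1 : X → X) (g n x) ∈ (B : Set X) := hVB' _ (hsF0 n) (hc n)
    have h2 : ((c n).1 : X → X) (g m x) ∈ (B : Set X) := by
      refine hVB' _ (hsF0 m) ?_
      rw [hcnm]
      exact hc m
    have h3 := (h𝒟 B B.2).2 _ h1 _ h2
    have h4 := hne t (hclG ht) (((c n).1 : X → X) (g n x)) (((c n).1 : X → X) (g m x))
    rw [ht1 _ (hmF n), ht1 _ (hmF m)] at h4
    have h5 := hgd n m hnm
    linarith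
  rcases lt_or_gt_of_ne hnm with h | h
  · exact hkey n m h hcnm
  · exact hkey m n h hcnm.symm

end Pool.Agent.L7h51.WapFix
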