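import Mathlib

set_option autoImplicit false

/-!
# Weakly almost periodic functions on a semitopological semigroup, left invariant means and
# representations on weakly compact convex sets
-/

open Set Filter Topology
open scoped BoundedContinuousFunction

namespace Pool.Agent.L7h51.WapFix

/-- A semitopological semigroup: a semigroup with a Hausdorff topology for which the maps
`s ↦ t s` and `s ↦ s t` are continuous for every `t`. -/
class Semitopological (S : Type*) [Semigroup S] [TopologicalSpace S] : Prop where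
  t2 : T2Space S
  continuous_left : ∀ t : S, Continuous fun s : S => t * s
  continuous_right : ∀ t : S, Continuous fun s : S => s * t

variable {S : Type*} [Semigroup S] [TopologicalSpace S] [Semitopological S]

/-- The left translate `ℓ_a f : t ↦ f (a t)` of a bounded continuous function. -/
def translate {𝕂 : Type*} [RCLike 𝕂] (a : S) (f : S →ᵇ 𝕂) : S →ᵇ 𝕂 :=
  f.compContinuous ⟨fun t => a * t, Semitopological.continuous_left a⟩

/-- `f` is weakly almost periodic: its orbit `{ℓ_a f : a ∈ S}` is relatively compact for the weak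
topology of the Banach space `C_b(S)`. -/
def IsWAP {𝕂 : Type*} [RCLike 𝕂] (f : S →ᵇ 𝕂) : Prop :=
  IsCompact (closure (range fun a : S => toWeakSpace 𝕂 (S →ᵇ 𝕂) (translate a f)))

lemma translate_add {𝕂 : Type*} [RCLike 𝕂] (a : S) (f g : S →ᵇ 𝕂) :
    translate a (f + g) = translate a f + translate a g := rfl

lemma translate_smul {𝕂 : Type*} [RCLike 𝕂] (a : S) (c : 𝕂) (f : S →ᵇ 𝕂) :
    translate a (c • f) = c • translate a f := rfl

/-- The space `WAP(S)` of the weakly almost periodic functions (with values in `𝕂 = ℝ` or `ℂ`). -/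
def WAP (𝕂 : Type*) [RCLike 𝕂] (S : Type*) [Semigroup S] [TopologicalSpace S]
    [Semitopological S] : Submodule 𝕂 (S →ᵇ 𝕂) where
  carrier := {f | IsWAP f}
  zero_mem' := by
    have h : (range fun a : S => toWeakSpace 𝕂 (S →ᵇ 𝕂) (translate a (0 : S →ᵇ 𝕂))) ⊆
        {toWeakSpace 𝕂 (S →ᵇ 𝕂) 0} := by
      rintro _ ⟨a, rfl⟩
      rfl
    exact (isCompact_singleton).closure_of_subset h
  add_mem' := by
    intro f g hf hg
    have h1 := IsCompact.add hf hg
    refine h1.closure_of_subset ?_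
    rintro _ ⟨a, rfl⟩
    exact ⟨_, subset_closure ⟨a, rfl⟩, _, subset_closure ⟨a, rfl⟩, rfl⟩
  smul_mem' := by
    intro c f hf
    have h1 := IsCompact.image hf (continuous_const_smul c)
    refine h1.closure_of_subset ?_
    rintro _ ⟨a, rfl⟩
    exact ⟨_, subset_closure ⟨a, rfl⟩, rfl⟩

lemma mem_WAP {𝕂 : Type*} [RCLike 𝕂] {f : S →ᵇ 𝕂} : f ∈ WAP 𝕂 S ↔ IsWAP f := Iff.rfl

/-- `m` is a left invariant mean on `WAP(S)`: a linear functional with `m f ≥ 0` for `f ≥ 0`,
`m 1 = 1` and `m (ℓ_a f) = m f`. -/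
structure IsLIM {𝕂 : Type*} [RCLike 𝕂] (m : WAP 𝕂 S →ₗ[𝕂] 𝕂) : Prop where
  nonneg : ∀ f : WAP 𝕂 S, (∀ s : S, ∃ r : ℝ, 0 ≤ r ∧ (f : S →ᵇ 𝕂) s = (r : 𝕂)) →
    ∃ r : ℝ, 0 ≤ r ∧ m f = (r : 𝕂)
  one : ∀ f : WAP 𝕂 S, (∀ s : S, (f : S →ᵇ 𝕂) s = 1) → m f = 1
  invariant : ∀ (a : S) (f g : WAP 𝕂 S), (∀ t : S, (g : S →ᵇ 𝕂) t = (f : S →ᵇ 𝕂) (a * t)) →
    m g = m f

/-- `T` is a representation of `S` on the subset `C` of the locally convex space `(E, Q)` (`C` is
given as a subset of `E` with its weak topology) which is weakly separately continuous, weakly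
quasi-equicontinuous and `Q`-nonexpansive. -/
structure IsGoodRep {𝕜 E ι : Type*} [RCLike 𝕜] [AddCommGroup E] [Module 𝕜 E] [TopologicalSpace E]
    (Q : ι → Seminorm 𝕜 E) (C : Set (WeakSpace 𝕜 E)) (T : S → C → C) : Prop where
  /-- `T_{st} = T_s ∘ T_t` -/
  mul : ∀ (s t : S) (x : C), T (s * t) x = T s (T t x)
  /-- every `T_s` is weakly continuous -/
  continuous_right : ∀ s : S, Continuous (T s)
  /-- every map `s ↦ T_s x` is continuous into `C` with the weak topology -/
  continuous_left : ∀ x : C, Continuous fun s : S => T s x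
  /-- all maps in the closure of `{T_s}` in the product space `(C, weak) ^ C` are weakly
  continuous -/
  quasi_equicontinuous : ∀ g ∈ closure (range T), Continuous g
  /-- `p (T_s x - T_s y) ≤ p (x - y)` for all `p ∈ Q` -/
  nonexpansive : ∀ (i : ι) (s : S) (x y : C),
    Q i ((toWeakSpace 𝕜 E).symm (T s x : WeakSpace 𝕜 E) -
      (toWeakSpace 𝕜 E).symm (T s y : WeakSpace 𝕜 E)) ≤
    Q i ((toWeakSpace 𝕜 E).symm (x : WeakSpace 𝕜 E) - (toWeakSpace 𝕜 E).symm (y : WeakSpace 𝕜 E))

end Pool.Agent.L7h51.WapFix
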