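import Mathlib
import Pool.Agent.L7h51.WapFix.Abs

set_option autoImplicit false

/-!
# DeMarr's argument for a minimal invariant convex set
-/

open Set Filter Topology

namespace Pool.Agent.L7h51.WapFix

variable {X : Type*} [TopologicalSpace X] [CompactSpace X] [T2Space X]

/-- The sets among which a minimal one is chosen. -/
def Inv {E : Type*} [AddCommGroup E] [Module ℝ E] (e : X → E) (G : Set (X → X)) (K : Set X) :
    Prop :=
  K.Nonempty ∧ IsClosed K ∧ Convex ℝ (e '' K) ∧ ∀ g ∈ G, MapsTo g K K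

lemma exists_minimal {E : Type*} [AddCommGroup E] [Module ℝ E] (e : X → E)
    (he : Function.Injective e) (G : Set (X → X)) (hne : Nonempty X)
    (hconv : Convex ℝ (range e)) : ∃ K, Minimal (Inv e G) K := by
  have hz := zorn_superset {K : Set X | Inv e G K} (by
    intro c hc hchain
    rcases c.eq_empty_or_nonempty with rfl | hcne
    · refine ⟨univ, ⟨univ_nonempty, isClosed_univ, by rwa [image_univ], fun g _ => mapsTo_univ _ _⟩,
        by simp⟩
    · refine ⟨⋂₀ c, ⟨?_, ?_, ?_, ?_⟩, fun s hs => sInter_subset_of_mem hs⟩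
      · have hdir : DirectedOn (· ⊇ ·) c := by
          intro a ha b hb
          rcases hchain.total ha hb with hab | hab
          · exact ⟨a, ha, Subset.rfl, hab⟩
          · exact ⟨b, hb, hab, Subset.rfl⟩
        have : Nonempty c := hcne.to_subtype
        exact IsCompact.nonempty_sInter_of_directed_nonempty_isCompact_isClosed
          hdir (fun s hs => (hc hs).1) (fun s hs => (hc hs).2.1.isCompact) (fun s hs => (hc hs).2.1)
      · exact isClosed_sInter fun s hs => (hc hs).2.1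
      · rintro _ ⟨x, hx, rfl⟩ _ ⟨y, hy, rfl⟩ a b ha hb hab
        obtain ⟨s0, hs0⟩ := hcne
        obtain ⟨z, hz, hze⟩ := (hc hs0).2.2.1 ⟨x, hx s0 hs0, rfl⟩ ⟨y, hy s0 hs0, rfl⟩ ha hb hab
        refine ⟨z, ?_, hze⟩
        intro s hs
        obtain ⟨z', hz', hze'⟩ := (hc hs).2.2.1 ⟨x, hx s hs, rfl⟩ ⟨y, hy s hs, rfl⟩ ha hb hab
        have : z = z' := he (hze.trans hze'.symm)
        rwa [this]
      · intro g hg x hx s hs
        exact (hc hs).2.2.2 g hg (hx s hs))
  obtain ⟨K, hK⟩ := hz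
  exact ⟨K, hK⟩

theorem demarr {E : Type*} [AddCommGroup E] [Module ℝ E] (e : X → E)
    (q : Seminorm ℝ E)
    (hclosed : ∀ (z : E) (r : ℝ), IsClosed {w : X | q (e w - z) ≤ r})
    (hsep : ∀ A : Set X, A.Countable → ∀ ε > 0, ∃ 𝒟 : Set (Set X), 𝒟.Countable ∧
      (∀ B ∈ 𝒟, IsClosed B ∧ ∀ x ∈ B, ∀ y ∈ B, q (e x - e y) ≤ ε) ∧ closure A ⊆ ⋃₀ 𝒟)
    {G : Set (X → X)} (hG : IsCSemi G)
    (hne : ∀ g ∈ G, ∀ x y, q (e (g x) - e (g y)) ≤ q (e x - e y))
    {K F : Set X} (hF : ∀ g ∈ G, g '' F = F) (hFK : F ⊆ K)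
    (hK : Minimal (Inv e G) K) {x : X} (hx : x ∈ F) {g h : X → X} (hg : g ∈ G) (hh : h ∈ G) :
    q (e (g x) - e (h x)) = 0 := by
  classical
  have hsymm : ∀ x y, q (e x - e y) = q (e y - e x) := fun x y => by
    rw [← neg_sub, map_neg_eq_map]
  have htb := fun ε (hε : (0 : ℝ) < ε) => orbit_tb hG hF (fun x y => q (e x - e y)) hsymm hne hsep
    hx hε
  -- the diameter
  let Δ : Set ℝ := {t | ∃ g ∈ G, ∃ h ∈ G, t = q (e (g x) - e (h x))}
  have hbdd : BddAbove Δ := by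
    obtain ⟨N, hN1, hN2⟩ := htb 1 one_pos
    refine ⟨1 + ∑ p ∈ N ×ˢ N, q (e p.1 - e p.2) + 1, ?_⟩
    rintro _ ⟨g, hg, h, hh, rfl⟩
    obtain ⟨z, hz, hz2⟩ := hN2 g hg
    obtain ⟨w, hw, hw2⟩ := hN2 h hh
    have h1 : q (e (g x) - e (h x)) ≤ q (e (g x) - e z) + q (e z - e w) + q (e w - e (h x)) := by
      have h2 := map_add_le_add q (e (g x) - e z + (e z - e w)) (e w - e (h x))
      have h3 := map_add_le_add q (e (g x) - e z) (e z - e w)
      have h4 : e (g x) - e z + (e z - e w) + (e w - e (h x)) = e (g x) - e (h x) := by abel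
      rw [h4] at h2
      linarith
    have h5 : q (e z - e w) ≤ ∑ p ∈ N ×ˢ N, q (e p.1 - e p.2) :=
      Finset.single_le_sum (f := fun p : X × X => q (e p.1 - e p.2))
        (fun p _ => apply_nonneg q _) (Finset.mem_product.2 ⟨hz, hw⟩ : (z, w) ∈ N ×ˢ N)
    rw [hsymm (h x) w] at hw2
    linarith
  have hΔ : ∀ g ∈ G, ∀ h ∈ G, q (e (g x) - e (h x)) ≤ sSup Δ := fun g hg h hh =>
    le_csSup hbdd ⟨g, hg, h, hh, rfl⟩
  have hmain : sSup Δ ≤ 0 := by
    by_contra hcon
    rw [not_le] at hcon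
    set δ := sSup Δ with hδ
    obtain ⟨N, hN1, hN2⟩ := htb (δ / 2) (by linarith)
    have hNne : N.Nonempty := by
      obtain ⟨g0, hg0⟩ := hG.nonempty
      obtain ⟨z, hz, -⟩ := hN2 g0 hg0
      exact ⟨z, hz⟩
    have hn : (0 : ℝ) < N.card := by exact_mod_cast hNne.card_pos
    have hNK : ∀ z ∈ N, z ∈ K := by
      intro z hz
      obtain ⟨g1, hg1, rfl⟩ := hN1 z hz
      exact hK.prop.2.2.2 g1 hg1 (hFK hx)
    obtain ⟨u, huK, hu⟩ : ∃ u ∈ K, e u = ∑ z ∈ N, (N.card : ℝ)⁻¹ • e z := by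
      have h1 := hK.prop.2.2.1.sum_mem (t := N) (w := fun _ => (N.card : ℝ)⁻¹) (z := e)
        (fun _ _ => by positivity) (by rw [Finset.sum_const, nsmul_eq_mul]; field_simp)
        (fun z hz => ⟨z, hNK z hz, rfl⟩)
      obtain ⟨u, h2, h3⟩ := h1
      exact ⟨u, h2, h3⟩
    set r := δ * (1 - 1 / (2 * N.card)) with hr
    have hrδ : r < δ := by
      rw [hr]
      have : 0 < 1 / (2 * (N.card : ℝ)) := by positivity
      nlinarith
    have hur : ∀ g ∈ G, q (e u - e (g x)) ≤ r := by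
      intro g1 hg1
      obtain ⟨z0, hz0, hz1⟩ := hN2 g1 hg1
      have h1 : e u - e (g1 x) = ∑ z ∈ N, (N.card : ℝ)⁻¹ • (e z - e (g1 x)) := by
        simp only [smul_sub]
        rw [Finset.sum_sub_distrib, hu, Finset.sum_const, ← Nat.cast_smul_eq_nsmul ℝ, smul_smul,
          mul_inv_cancel₀ hn.ne', one_smul]
      rw [h1]
      have h2 : q (∑ z ∈ N, (N.card : ℝ)⁻¹ • (e z - e (g1 x))) ≤
          ∑ z ∈ N, q ((N.card : ℝ)⁻¹ • (e z - e (g1 x))) :=
        Finset.le_sum_of_subadditive q (map_zero q).le (map_add_le_add q) _ _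
      refine h2.trans ?_
      have h3 : ∀ z ∈ N, q ((N.card : ℝ)⁻¹ • (e z - e (g1 x))) =
          (N.card : ℝ)⁻¹ * q (e z - e (g1 x)) := by
        intro z hz
        rw [map_smul_eq_mul, Real.norm_of_nonneg (by positivity)]
      rw [Finset.sum_congr rfl h3, ← Finset.mul_sum]
      have h4 : ∑ z ∈ N, q (e z - e (g1 x)) ≤ ∑ z ∈ N, (δ - if z = z0 then δ / 2 else 0) := by
        refine Finset.sum_le_sum fun z hz => ?_
        by_cases hzz : z = z0
        · rw [if_pos hzz, hzz, hsymm]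
          linarith
        · rw [if_neg hzz, sub_zero]
          obtain ⟨g2, hg2, rfl⟩ := hN1 z hz
          exact hΔ g2 hg2 g1 hg1
      rw [Finset.sum_sub_distrib, Finset.sum_const, Finset.sum_ite_eq' , if_pos hz0,
        nsmul_eq_mul] at h4
      have h5 : (N.card : ℝ)⁻¹ * ∑ z ∈ N, q (e z - e (g1 x)) ≤
          (N.card : ℝ)⁻¹ * (N.card * δ - δ / 2) :=
        mul_le_mul_of_nonneg_left h4 (by positivity)
      refine h5.trans (le_of_eq ?_)
      rw [hr]
      field_simp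
    have hK0 : Inv e G (K ∩ {w | ∀ g ∈ G, q (e w - e (g x)) ≤ r}) := by
      refine ⟨⟨u, huK, hur⟩, ?_, ?_, ?_⟩
      · refine hK.prop.2.1.inter ?_
        have : {w : X | ∀ g ∈ G, q (e w - e (g x)) ≤ r} =
            ⋂ g ∈ G, {w : X | q (e w - e (g x)) ≤ r} := by
          ext w
          simp only [mem_ofPred_eq, mem_iInter]
        rw [this]
        exact isClosed_biInter fun g _ => hclosed _ _
      · rintro _ ⟨w, ⟨hw, hw'⟩, rfl⟩ _ ⟨v, ⟨hv, hv'⟩, rfl⟩ a b ha hb hab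
        obtain ⟨z, hz, hze⟩ := hK.prop.2.2.1 ⟨w, hw, rfl⟩ ⟨v, hv, rfl⟩ ha hb hab
        refine ⟨z, ⟨hz, fun g1 hg1 => ?_⟩, hze⟩
        have h1 : e z - e (g1 x) = a • (e w - e (g1 x)) + b • (e v - e (g1 x)) := by
          rw [hze, smul_sub, smul_sub]
          have : e (g1 x) = a • e (g1 x) + b • e (g1 x) := by rw [← add_smul, hab, one_smul]
          nth_rw 1 [this]
          abel
        rw [h1]
        have h2 := map_add_le_add q (a • (e w - e (g1 x))) (b • (e v - e (g1 x)))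
        rw [map_smul_eq_mul, map_smul_eq_mul, Real.norm_of_nonneg ha, Real.norm_of_nonneg hb] at h2
        have h3 := hw' g1 hg1
        have h4 := hv' g1 hg1
        have h5 : a * q (e w - e (g1 x)) ≤ a * r := mul_le_mul_of_nonneg_left h3 ha
        have h6 : b * q (e v - e (g1 x)) ≤ b * r := mul_le_mul_of_nonneg_left h4 hb
        have h7 : a * r + b * r = r := by rw [← add_mul, hab, one_mul]
        linarith
      · rintro k hk w ⟨hw, hw'⟩
        refine ⟨hK.prop.2.2.2 k hk hw, fun g1 hg1 => ?_⟩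
        obtain ⟨l, hl, hl2⟩ := orbit_surj hG hF hx hk hg1
        rw [← hl2]
        exact (hne k hk _ _).trans (hw' l hl)
    have hsub : K ⊆ K ∩ {w | ∀ g ∈ G, q (e w - e (g x)) ≤ r} := hK.le_of_le hK0 inter_subset_left
    have hle : δ ≤ r := by
      refine csSup_le ?_ ?_
      · exact ⟨_, g, hg, h, hh, rfl⟩
      · rintro _ ⟨g1, hg1, g2, hg2, rfl⟩
        have h1 : g1 x ∈ K := hK.prop.2.2.2 g1 hg1 (hFK hx)
        exact (hsub h1).2 g2 hg2
    linarith
  exact le_antisymm ((hΔ g hg h hh).trans hmain) (apply_nonneg q _)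

end Pool.Agent.L7h51.WapFix
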