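import Mathlib
import Pool.Agent.H731R2.Riesz

set_option autoImplicit false

/-!
# Bounded pointwise continuous maps of a compact space into `C(X)` are weakly continuous

(Grothendieck.)
-/

open Set Filter Topology MeasureTheory

namespace Pool.Agent.L7h51.WapFix

variable {X : Type*} [TopologicalSpace X] [CompactSpace X] [T2Space X]

/-- A bounded functional on `C(X, ℝ)` is dominated by a finite measure. -/
lemma exists_dominating (φ : C(X, ℝ) →L[ℝ] ℝ) :
    ∃ (m : MeasurableSpace X) (_ : BorelSpace X) (μ : Measure X), IsFiniteMeasure μ ∧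
      ∀ h : C(X, ℝ), |φ h| ≤ ∫ x, |h x| ∂μ := by
  let : MeasurableSpace X := borel X
  have : BorelSpace X := ⟨rfl⟩
  -- complexify
  let reC : C(X, ℂ) → C(X, ℝ) := fun h => ⟨fun x => (h x).re, by fun_prop⟩
  let imC : C(X, ℂ) → C(X, ℝ) := fun h => ⟨fun x => (h x).im, by fun_prop⟩
  let Φ0 : C(X, ℂ) →ₗ[ℂ] ℂ :=
    { toFun := fun h => (φ (reC h) : ℂ) + (φ (imC h) : ℂ) * Complex.I
      map_add' := by
        intro h k
        have h1 : reC (h + k) = reC h + reC k := by ext x; simp [reC]
        have h2 : imC (h + k) = imC h + imC k := by ext x; simp [imC]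
        rw [h1, h2, map_add, map_add]
        push_cast
        ring
      map_smul' := by
        intro c h
        have h1 : reC (c • h) = c.re • reC h - c.im • imC h := by ext x; simp [reC, imC]
        have h2 : imC (c • h) = c.re • imC h + c.im • reC h := by
          ext x
          simp [reC, imC]
        rw [h1, h2, map_sub, map_add, map_smul, map_smul, map_smul, map_smul]
        simp only [smul_eq_mul, RingHom.id_apply]
        push_cast
        apply Complex.ext <;> simp }
  have hre : ∀ h, ‖reC h‖ ≤ ‖h‖ := by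
    intro h
    rw [ContinuousMap.norm_le _ (norm_nonneg _)]
    intro x
    exact (Complex.abs_re_le_norm _).trans (h.norm_coe_le_norm x)
  have him : ∀ h, ‖imC h‖ ≤ ‖h‖ := by
    intro h
    rw [ContinuousMap.norm_le _ (norm_nonneg _)]
    intro x
    exact (Complex.abs_im_le_norm _).trans (h.norm_coe_le_norm x)
  let Φ : StrongDual ℂ C(X, ℂ) := Φ0.mkContinuous (2 * ‖φ‖) (by
    intro h
    change ‖(φ (reC h) : ℂ) + (φ (imC h) : ℂ) * Complex.I‖ ≤ _
    refine (norm_add_le _ _).trans ?_
    rw [norm_mul, Complex.norm_I, mul_one, Complex.norm_real, Complex.norm_real]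
    have h1 := (φ.le_opNorm (reC h)).trans (mul_le_mul_of_nonneg_left (hre h) (norm_nonneg _))
    have h2 := (φ.le_opNorm (imC h)).trans (mul_le_mul_of_nonneg_left (him h) (norm_nonneg _))
    linarith)
  obtain ⟨μ, hμ, -, hd⟩ := Pool.Agent.H731R2.exists_dominating_measure Φ
  refine ⟨inferInstance, inferInstance, μ, hμ, fun h => ?_⟩
  let hc : C(X, ℂ) := ⟨fun x => (h x : ℂ), by fun_prop⟩
  have h1 := hd hc
  have h2 : Φ hc = (φ h : ℂ) := by
    change (φ (reC hc) : ℂ) + (φ (imC hc) : ℂ) * Complex.I = _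
    have e1 : reC hc = h := by ext x; simp [reC, hc]
    have e2 : imC hc = 0 := by ext x; simp [imC, hc]
    rw [e1, e2, map_zero]
    simp
  rw [h2, Complex.norm_real, Real.norm_eq_abs] at h1
  refine h1.trans (le_of_eq ?_)
  congr 1
  ext x
  change ‖((h x : ℝ) : ℂ)‖ = |h x|
  rw [Complex.norm_real, Real.norm_eq_abs]

/-- Dominated convergence for functionals on `C(X, ℝ)`. -/
lemma functional_dct (φ : C(X, ℝ) →L[ℝ] ℝ) (g : ℕ → C(X, ℝ)) (g0 : C(X, ℝ)) (M : ℝ)
    (hM : ∀ n x, |g n x| ≤ M) (hlim : ∀ x, Tendsto (fun n => g n x) atTop (𝓝 (g0 x))) :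
    Tendsto (fun n => φ (g n)) atTop (𝓝 (φ g0)) := by
  obtain ⟨m, hm, μ, hμ, hd⟩ := exists_dominating φ
  have h1 : Tendsto (fun n => ∫ x, |(g n - g0) x| ∂μ) atTop (𝓝 (∫ x, (0 : ℝ) ∂μ)) := by
    refine tendsto_integral_of_dominated_convergence (fun x => M + |g0 x|) ?_ ?_ ?_ ?_
    · intro n
      exact (by fun_prop : Continuous fun x => |(g n - g0) x|).aestronglyMeasurable
    · have hc : Continuous fun x => M + |g0 x| := by fun_prop
      exact hc.integrable_of_hasCompactSupport (HasCompactSupport.of_compactSpace _)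
    · intro n
      refine Eventually.of_forall fun x => ?_
      rw [Real.norm_eq_abs, abs_abs, ContinuousMap.sub_apply]
      exact (abs_sub _ _).trans (add_le_add (hM n x) le_rfl)
    · refine Eventually.of_forall fun x => ?_
      have h2 := ((hlim x).sub_const (g0 x)).abs
      rw [sub_self, abs_zero] at h2
      exact h2
  rw [integral_zero] at h1
  rw [tendsto_iff_norm_sub_tendsto_zero]
  refine squeeze_zero (fun n => norm_nonneg _) (fun n => ?_) h1
  rw [← map_sub, Real.norm_eq_abs]
  exact hd _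

/-- **Grothendieck's theorem.** A bounded pointwise continuous map of a compact space into `C(X)` is
weakly continuous. -/
theorem continuous_functional {K : Type*} [TopologicalSpace K] [CompactSpace K]
    (g : K → C(X, ℝ)) (M : ℝ) (hM : ∀ k x, |g k x| ≤ M)
    (hg : ∀ x, Continuous fun k => g k x) (φ : C(X, ℝ) →L[ℝ] ℝ) :
    Continuous fun k => φ (g k) := by
  classical
  rw [continuous_iff_continuousAt]
  intro k0
  by_contra hcon
  rw [ContinuousAt, Metric.tendsto_nhds] at hcon
  push Not at hcon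
  obtain ⟨ε, hε, hfr⟩ := hcon
  have hfr' : ∃ᶠ k in 𝓝 k0, ε ≤ |φ (g k) - φ (g k0)| := by
    refine hfr.mono fun k hk => ?_
    simpa [Real.dist_eq] using hk
  -- the choices
  have hD : ∀ (s : Finset K) (n : ℕ), ∃ D : Finset X, ∀ x, ∃ y ∈ D, ∀ k ∈ insert k0 s,
      |g k x - g k y| < 1 / ((n : ℝ) + 1) := by
    intro s n
    have hpos : (0 : ℝ) < 1 / ((n : ℝ) + 1) := by positivity
    let U : X → Set X := fun y => {x | ∀ k ∈ insert k0 s, |g k x - g k y| < 1 / ((n : ℝ) + 1)}
    have hUo : ∀ y, IsOpen (U y) := by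
      intro y
      have : U y = ⋂ k ∈ insert k0 s, {x | |g k x - g k y| < 1 / ((n : ℝ) + 1)} := by
        ext x; simp [U]
      rw [this]
      refine isOpen_biInter_finset fun k _ => ?_
      exact isOpen_lt (by fun_prop) continuous_const
    obtain ⟨D, hD⟩ := isCompact_univ.elim_finite_subcover U hUo (by
      intro y _
      exact mem_iUnion.2 ⟨y, fun k _ => by rw [sub_self, abs_zero]; exact hpos⟩)
    refine ⟨D, fun x => ?_⟩
    obtain ⟨y, hy⟩ := mem_iUnion.1 (hD (mem_univ x))
    obtain ⟨hyD, hy2⟩ := mem_iUnion.1 hy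
    exact ⟨y, hyD, hy2⟩
  choose D hD using hD
  have hN : ∀ (t : Finset X) (n : ℕ), ∃ k, ε ≤ |φ (g k) - φ (g k0)| ∧
      ∀ y ∈ t, |g k y - g k0 y| < 1 / ((n : ℝ) + 1) := by
    intro t n
    have hpos : (0 : ℝ) < 1 / ((n : ℝ) + 1) := by positivity
    have hev : ∀ᶠ k in 𝓝 k0, ∀ y ∈ t, |g k y - g k0 y| < 1 / ((n : ℝ) + 1) := by
      rw [Filter.eventually_all_finset]
      intro y _
      have h1 := (((hg y).tendsto k0).sub_const (g k0 y)).abs
      rw [sub_self, abs_zero] at h1
      exact h1.eventually (gt_mem_nhds hpos)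
    obtain ⟨k, h1, h2⟩ := (hfr'.and_eventually hev).exists
    exact ⟨k, h1, h2⟩
  choose N hN1 hN2 using hN
  let st : ℕ → Finset K × Finset X := fun n => Nat.rec (∅, ∅) (fun n q =>
    (insert (N (q.2 ∪ D q.1 n) n) q.1, q.2 ∪ D q.1 n)) n
  have hst1 : ∀ n, (st (n + 1)).1 = insert (N (st (n + 1)).2 n) (st n).1 := fun n => rfl
  have hst2 : ∀ n, (st (n + 1)).2 = (st n).2 ∪ D (st n).1 n := fun n => rfl
  let sg : ℕ → K := fun n => N (st (n + 1)).2 n
  have hmono2 : Monotone fun n => (st n).2 := monotone_nat_of_le_succ fun n => by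
    simp only [hst2]
    exact Finset.subset_union_left
  have hmono1 : Monotone fun n => (st n).1 := monotone_nat_of_le_succ fun n => by
    simp only [hst1]
    exact Finset.subset_insert _ _
  have hsg : ∀ m n, m < n → sg m ∈ (st n).1 := by
    intro m n hmn
    have h1 : sg m ∈ (st (m + 1)).1 := by rw [hst1]; exact Finset.mem_insert_self _ _
    exact hmono1 (Nat.succ_le_of_lt hmn) h1
  -- pointwise convergence
  have hlim : ∀ x, Tendsto (fun n => g (sg n) x) atTop (𝓝 (g k0 x)) := by
    intro x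
    rw [tendsto_iff_ultrafilter]
    intro u hu
    choose y hyD hy using fun n => hD (st n).1 n x
    obtain ⟨kl, -, hkl⟩ := isCompact_univ.ultrafilter_le_nhds (u.map sg) (by simp)
    obtain ⟨yl, -, hyl⟩ := isCompact_univ.ultrafilter_le_nhds (u.map y) (by simp)
    have hkl' : Tendsto sg u (𝓝 kl) := hkl
    have hyl' : Tendsto y u (𝓝 yl) := hyl
    have hz : Tendsto (fun n : ℕ => 1 / ((n : ℝ) + 1)) u (𝓝 0) :=
      tendsto_one_div_add_atTop_nhds_zero_nat.mono_left hu
    have hgt : ∀ m : ℕ, ∀ᶠ n in (u : Filter ℕ), m < n := fun m => hu (eventually_gt_atTop m)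
    -- `g k x = g k yl` for all the relevant `k`
    have e1 : ∀ k : K, (∀ᶠ n in (u : Filter ℕ), k ∈ insert k0 (st n).1) → g k x = g k yl := by
      intro k hk
      have h1 : Tendsto (fun n => g k x - g k (y n)) u (𝓝 (g k x - g k yl)) :=
        tendsto_const_nhds.sub (((g k).continuous.tendsto yl).comp hyl')
      have h2 : Tendsto (fun n => g k x - g k (y n)) u (𝓝 0) := by
        refine squeeze_zero_norm' ?_ hz
        filter_upwards [hk] with n hn
        exact (hy n k hn).le
      exact sub_eq_zero.1 (tendsto_nhds_unique h1 h2)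
    have e2 : g k0 x = g k0 yl := e1 k0 (Eventually.of_forall fun n => Finset.mem_insert_self _ _)
    have e3 : ∀ m, g (sg m) x = g (sg m) yl := fun m => e1 _ (by
      filter_upwards [hgt m] with n hn
      exact Finset.mem_insert_of_mem (hsg m n hn))
    -- `g kl = g k0` at the points `y n`
    have e4 : ∀ n, g kl (y n) = g k0 (y n) := by
      intro n
      have h1 : Tendsto (fun m => g (sg m) (y n) - g k0 (y n)) u (𝓝 (g kl (y n) - g k0 (y n))) :=
        (((hg (y n)).tendsto kl).comp hkl').sub tendsto_const_nhds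
      have h2 : Tendsto (fun m => g (sg m) (y n) - g k0 (y n)) u (𝓝 0) := by
        refine squeeze_zero_norm' ?_ hz
        filter_upwards [hgt n] with m hm
        have h3 : y n ∈ (st (m + 1)).2 := by
          have h4 : y n ∈ (st (n + 1)).2 := by
            rw [hst2]
            exact Finset.mem_union_right _ (hyD n)
          exact hmono2 (by omega : n + 1 ≤ m + 1) h4
        exact (hN2 _ m (y n) h3).le
      exact sub_eq_zero.1 (tendsto_nhds_unique h1 h2)
    have e5 : g kl yl = g k0 yl := by
      have h1 : Tendsto (fun n => g kl (y n)) u (𝓝 (g kl yl)) :=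
        ((g kl).continuous.tendsto yl).comp hyl'
      have h2 : Tendsto (fun n => g kl (y n)) u (𝓝 (g k0 yl)) := by
        simp only [e4]
        exact ((g k0).continuous.tendsto yl).comp hyl'
      exact tendsto_nhds_unique h1 h2
    have h1 : Tendsto (fun n => g (sg n) x) u (𝓝 (g kl yl)) := by
      simp only [e3]
      exact ((hg yl).tendsto kl).comp hkl'
    rw [e5, ← e2] at h1
    exact h1
  have h1 := functional_dct φ (fun n => g (sg n)) (g k0) M (fun n x => hM _ x) hlim
  have h2 : Tendsto (fun n => |φ (g (sg n)) - φ (g k0)|) atTop (𝓝 0) := by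
    have := (h1.sub_const (φ (g k0))).abs
    rwa [sub_self, abs_zero] at this
  have h3 : ε ≤ 0 := ge_of_tendsto' h2 fun n => hN1 _ n
  linarith

end Pool.Agent.L7h51.WapFix
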