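import Mathlib

set_option autoImplicit false

/-!
# The support of a positive functional which is invariant under continuous maps
-/

open Set Filter Topology

namespace Pool.Agent.L7h51.WapFix

variable {X : Type*} [TopologicalSpace X] [CompactSpace X] [T2Space X]

/-- the support of a functional on `C(X, ℝ)` -/
def supp (l : C(X, ℝ) →ₗ[ℝ] ℝ) : Set X :=
  {x | ∀ h : C(X, ℝ), (∀ y, 0 ≤ h y) → 0 < h x → 0 < l h}

variable {l : C(X, ℝ) →ₗ[ℝ] ℝ}

lemma isClosed_supp : IsClosed (supp l) := by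
  rw [← isOpen_compl_iff, isOpen_iff_mem_nhds]
  intro x hx
  simp only [supp, mem_compl_iff, mem_setOf_eq, not_forall] at hx
  obtain ⟨h, h1, h2, h3⟩ := hx
  filter_upwards [(isOpen_lt continuous_const h.continuous).mem_nhds h2] with y hy
  exact fun hy2 => h3 (hy2 h h1 hy)

lemma urysohn {K : Set X} (hK : IsClosed K) {x : X} (hx : x ∉ K) :
    ∃ h : C(X, ℝ), (∀ y, 0 ≤ h y) ∧ h x = 1 ∧ ∀ y ∈ K, h y = 0 := by
  obtain ⟨h, h1, h2, h3⟩ := exists_continuous_zero_one_of_isClosed hK (isClosed_singleton (x := x))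
    (by rw [disjoint_singleton_right]; exact hx)
  exact ⟨h, fun y => (h3 y).1, h2 (mem_singleton x), fun y hy => h1 hy⟩

lemma l_mono (hpos : ∀ h : C(X, ℝ), (∀ y, 0 ≤ h y) → 0 ≤ l h) {h k : C(X, ℝ)}
    (hk : ∀ y, h y ≤ k y) : l h ≤ l k := by
  have := hpos (k - h) (fun y => by rw [ContinuousMap.sub_apply]; linarith [hk y])
  rw [map_sub] at this
  linarith

/-- A nonnegative function which vanishes on the support has the integral zero. -/
lemma l_eq_zero (hpos : ∀ h : C(X, ℝ), (∀ y, 0 ≤ h y) → 0 ≤ l h) {k : C(X, ℝ)}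
    (hk0 : ∀ y, 0 ≤ k y) (hk : ∀ y ∈ supp l, k y = 0) : l k = 0 := by
  classical
  refine le_antisymm ?_ (hpos k hk0)
  have h1 : ∀ ε > 0, l k ≤ ε * l 1 := by
    intro ε hε
    let Z : Set X := {y | ε ≤ k y}
    have hZc : IsCompact Z := (isClosed_le continuous_const k.continuous).isCompact
    have hZ : ∀ y ∈ Z, ∃ h : C(X, ℝ), (∀ y, 0 ≤ h y) ∧ 0 < h y ∧ l h = 0 := by
      intro y hy
      have hns : y ∉ supp l := fun hs => by
        have := hk y hs
        have hy' : ε ≤ k y := hy
        linarith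
      simp only [supp, mem_setOf_eq, not_forall] at hns
      obtain ⟨h, h1, h2, h3⟩ := hns
      exact ⟨h, h1, h2, le_antisymm (not_lt.1 h3) (hpos h h1)⟩
    choose! f hf using hZ
    obtain ⟨t, htZ, ht⟩ := hZc.elim_nhds_subcover (fun y => {z | 0 < f y z}) (fun y hy =>
      (isOpen_lt continuous_const (f y).continuous).mem_nhds (hf y hy).2.1)
    let S : C(X, ℝ) := ∑ y ∈ t, f y
    have hS0 : ∀ z, 0 ≤ S z := by
      intro z
      simp only [S, ContinuousMap.coe_sum, Finset.sum_apply]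
      exact Finset.sum_nonneg fun y hy => (hf y (htZ y hy)).1 z
    have hSl : l S = 0 := by
      simp only [S, map_sum]
      exact Finset.sum_eq_zero fun y hy => (hf y (htZ y hy)).2.2
    have hSpos : ∀ z ∈ Z, 0 < S z := by
      intro z hz
      obtain ⟨y, hy⟩ := mem_iUnion.1 (ht hz)
      obtain ⟨hyt, hy2⟩ := mem_iUnion.1 hy
      have hy2' : 0 < f y z := hy2
      refine lt_of_lt_of_le hy2' ?_
      simp only [S, ContinuousMap.coe_sum, Finset.sum_apply]
      exact Finset.single_le_sum (f := fun y => f y z)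
        (fun y hy => (hf y (htZ y hy)).1 z) hyt
    -- `k ≤ ε + c S`
    obtain ⟨c, hc0, hc⟩ : ∃ c : ℝ, 0 ≤ c ∧ ∀ z ∈ Z, k z ≤ c * S z := by
      by_cases hne : Z.Nonempty
      · obtain ⟨w, hw, hwmin⟩ := hZc.exists_isMinOn hne S.continuous.continuousOn
        have hwp := hSpos w hw
        refine ⟨‖k‖ / S w, by positivity, fun z hz => ?_⟩
        have h1 : S w ≤ S z := hwmin hz
        have h2 : k z ≤ ‖k‖ := (le_abs_self _).trans (k.norm_coe_le_norm z)
        calc k z ≤ ‖k‖ := h2
          _ = ‖k‖ / S w * S w := by field_simp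
          _ ≤ ‖k‖ / S w * S z := mul_le_mul_of_nonneg_left h1 (by positivity)
      · exact ⟨0, le_rfl, fun z hz => absurd ⟨z, hz⟩ hne⟩
    have h2 : l k ≤ l (ε • (1 : C(X, ℝ)) + c • S) := by
      refine l_mono hpos fun z => ?_
      simp only [ContinuousMap.add_apply, ContinuousMap.coe_smul, Pi.smul_apply, smul_eq_mul,
        ContinuousMap.one_apply, mul_one]
      by_cases hz : z ∈ Z
      · have := hc z hz
        linarith
      · have hz' : k z < ε := not_le.1 hz
        have := mul_nonneg hc0 (hS0 z)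
        linarith
    rw [map_add, map_smul, map_smul, hSl, smul_zero, add_zero, smul_eq_mul] at h2
    exact h2
  by_contra hcon
  push Not at hcon
  have h2 : 0 ≤ l 1 := hpos 1 fun y => by simp
  have h3 := h1 (l k / (2 * (l 1 + 1))) (by positivity)
  have h4 : l k / (2 * (l 1 + 1)) * l 1 ≤ l k / 2 := by
    rw [div_mul_eq_mul_div, div_le_div_iff₀ (by positivity) (by norm_num)]
    nlinarith
  linarith

/-- The support is mapped onto itself by every continuous map which preserves the functional. -/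
lemma supp_invariant (hpos : ∀ h : C(X, ℝ), (∀ y, 0 ≤ h y) → 0 ≤ l h) (s : C(X, X))
    (hs : ∀ h : C(X, ℝ), l (h.comp s) = l h) : s '' supp l = supp l := by
  apply Subset.antisymm
  · rintro _ ⟨x, hx, rfl⟩ h h1 h2
    rw [← hs]
    exact hx (h.comp s) (fun y => h1 _) h2
  · intro y hy
    by_contra hcon
    obtain ⟨h, h1, h2, h3⟩ := urysohn (isClosed_supp.isCompact.image s.continuous).isClosed hcon
    have h4 : l (h.comp s) = 0 := l_eq_zero hpos (fun y => h1 _) fun z hz => h3 _ ⟨z, hz, rfl⟩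
    have h5 := hy h h1 (by rw [h2]; exact one_pos)
    rw [← hs, h4] at h5
    exact lt_irrefl _ h5

lemma supp_nonempty (hpos : ∀ h : C(X, ℝ), (∀ y, 0 ≤ h y) → 0 ≤ l h) (h1 : l 1 = 1) :
    (supp l).Nonempty := by
  by_contra hcon
  rw [not_nonempty_iff_eq_empty] at hcon
  have := l_eq_zero (l := l) hpos (k := 1) (fun y => by simp) (by rw [hcon]; simp)
  rw [h1] at this
  exact one_ne_zero this

lemma supp_subset {K : Set X} (hK : IsClosed K)
    (h : ∀ h : C(X, ℝ), (∀ y ∈ K, h y = 0) → l h = 0) : supp l ⊆ K := by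
  intro x hx
  by_contra hcon
  obtain ⟨f, h1, h2, h3⟩ := urysohn hK hcon
  have h4 := hx f h1 (by rw [h2]; exact one_pos)
  rw [h f h3] at h4
  exact lt_irrefl _ h4

end Pool.Agent.L7h51.WapFix
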