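import Mathlib
import Pool.Agent.L7h51.WapFix.Geo
import Pool.Agent.L7h51.WapFix.Groth
import Pool.Agent.L7h51.WapFix.Supp
import Pool.Agent.L7h51.WapFix.Defs

set_option autoImplicit false

/-!
# The fixed point theorem
-/

open Set Filter Topology
open scoped BoundedContinuousFunction

namespace Pool.Agent.L7h51.WapFix

section Mean

variable {𝕂 : Type*} [RCLike 𝕂] {S : Type*} [Semigroup S] [TopologicalSpace S] [Semitopological S]
variable {X : Type*} [TopologicalSpace X] [CompactSpace X] [T2Space X]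

/-- `Ψ h (t) = h (T_t x0)` -/
noncomputable def Psi (T : S → X → X) (x0 : X) (hc : Continuous fun s : S => T s x0) :
    C(X, ℝ) →L[ℝ] (S →ᵇ 𝕂) :=
  LinearMap.mkContinuous
    { toFun := fun h => BoundedContinuousFunction.ofNormedAddCommGroup
        (fun s => ((h (T s x0) : ℝ) : 𝕂)) (by fun_prop) ‖h‖ (fun s => by
          rw [RCLike.norm_ofReal]
          exact h.norm_coe_le_norm _)
      map_add' := fun h k => by
        ext s
        simp
      map_smul' := fun c h => by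
        ext s
        simp [RCLike.real_smul_eq_coe_mul] } 1 (fun h => by
      rw [one_mul]
      refine (BoundedContinuousFunction.norm_le (norm_nonneg h)).2 fun s => ?_
      change ‖((h (T s x0) : ℝ) : 𝕂)‖ ≤ _
      rw [RCLike.norm_ofReal]
      exact h.norm_coe_le_norm _)

omit [Semigroup S] [Semitopological S] [T2Space X] in
lemma Psi_apply (T : S → X → X) (x0 : X) (hc : Continuous fun s : S => T s x0) (h : C(X, ℝ))
    (s : S) : Psi (𝕂 := 𝕂) T x0 hc h s = ((h (T s x0) : ℝ) : 𝕂) := rfl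

/-- the maps `σ ↦ h ∘ σ` -/
def compMap {G : Set (X → X)} (hG : IsCSemi G) (h : C(X, ℝ)) (σ : G) : C(X, ℝ) :=
  h.comp ⟨σ.1, hG.cont σ.1 σ.2⟩

lemma functional_comp_continuous {G : Set (X → X)} (hG : IsCSemi G) (h : C(X, ℝ))
    (φ : C(X, ℝ) →L[ℝ] ℝ) : Continuous fun σ : G => φ (compMap hG h σ) := by
  have : CompactSpace G := isCompact_iff_compactSpace.1 hG.closed.isCompact
  refine continuous_functional (compMap hG h) ‖h‖ (fun σ x => ?_) (fun x => ?_) φ
  · exact h.norm_coe_le_norm _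
  · exact h.continuous.comp ((continuous_apply x).comp continuous_subtype_val)

lemma Psi_mem_WAP (T : S → X → X) (hmul : ∀ s t x, T (s * t) x = T s (T t x))
    (hG : IsCSemi (closure (range T))) (x0 : X) (hc : Continuous fun s : S => T s x0)
    (h : C(X, ℝ)) : Psi (𝕂 := 𝕂) T x0 hc h ∈ WAP 𝕂 S := by
  rw [mem_WAP]
  have hcomp : CompactSpace (closure (range T)) := isCompact_iff_compactSpace.1 hG.closed.isCompact
  let Φ : closure (range T) → WeakSpace 𝕂 (S →ᵇ 𝕂) := fun σ =>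
    toWeakSpace 𝕂 (S →ᵇ 𝕂) (Psi (𝕂 := 𝕂) T x0 hc (compMap hG h σ))
  have hΦ : Continuous Φ := by
    refine WeakBilin.continuous_of_continuous_eval _ fun φ => ?_
    change Continuous fun σ => φ (Psi (𝕂 := 𝕂) T x0 hc (compMap hG h σ))
    have hre : Continuous fun σ => RCLike.re (φ (Psi (𝕂 := 𝕂) T x0 hc (compMap hG h σ))) :=
      functional_comp_continuous hG h
        ((RCLike.reCLM : StrongDual ℝ 𝕂).comp ((φ.restrictScalars ℝ).comp (Psi (𝕂 := 𝕂) T x0 hc)))
    have him : Continuous fun σ => RCLike.im (φ (Psi (𝕂 := 𝕂) T x0 hc (compMap hG h σ))) :=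
      functional_comp_continuous hG h
        ((RCLike.imCLM : StrongDual ℝ 𝕂).comp ((φ.restrictScalars ℝ).comp (Psi (𝕂 := 𝕂) T x0 hc)))
    have h1 : Continuous fun σ =>
        ((RCLike.re (φ (Psi (𝕂 := 𝕂) T x0 hc (compMap hG h σ))) : ℝ) : 𝕂) +
        ((RCLike.im (φ (Psi (𝕂 := 𝕂) T x0 hc (compMap hG h σ))) : ℝ) : 𝕂) * RCLike.I :=
      (RCLike.continuous_ofReal.comp hre).add ((RCLike.continuous_ofReal.comp him).mul
        continuous_const)
    refine h1.congr fun σ => ?_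
    rw [RCLike.re_add_im]
  have hK : IsCompact (range Φ) := isCompact_range hΦ
  refine hK.closure_of_subset ?_
  rintro _ ⟨a, rfl⟩
  refine ⟨⟨T a, subset_closure ⟨a, rfl⟩⟩, ?_⟩
  change toWeakSpace 𝕂 (S →ᵇ 𝕂) _ = toWeakSpace 𝕂 (S →ᵇ 𝕂) _
  congr 1
  ext t
  change ((h (T a (T t x0)) : ℝ) : 𝕂) = ((h (T (a * t) x0) : ℝ) : 𝕂)
  rw [hmul]

/-- the functional on `C(X)` given by a mean and a point -/
noncomputable def lam (m : WAP 𝕂 S →ₗ[𝕂] 𝕂) (T : S → X → X)
    (hmul : ∀ s t x, T (s * t) x = T s (T t x))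
    (hG : IsCSemi (closure (range T))) (x0 : X) (hc : Continuous fun s : S => T s x0) :
    C(X, ℝ) →ₗ[ℝ] ℝ where
  toFun h := RCLike.re (m ⟨Psi (𝕂 := 𝕂) T x0 hc h, Psi_mem_WAP T hmul hG x0 hc h⟩)
  map_add' h k := by
    rw [← map_add, ← map_add]
    congr 2
    apply Subtype.ext
    exact map_add _ _ _
  map_smul' c h := by
    have h1 : (⟨Psi (𝕂 := 𝕂) T x0 hc (c • h), Psi_mem_WAP T hmul hG x0 hc (c • h)⟩ : WAP 𝕂 S) =
        (c : 𝕂) • ⟨Psi (𝕂 := 𝕂) T x0 hc h, Psi_mem_WAP T hmul hG x0 hc h⟩ := by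
      apply Subtype.ext
      refine (map_smul (Psi (𝕂 := 𝕂) T x0 hc) c h).trans ?_
      ext s
      change c • (Psi (𝕂 := 𝕂) T x0 hc h s) = (c : 𝕂) • (Psi (𝕂 := 𝕂) T x0 hc h s)
      rw [RCLike.real_smul_eq_coe_mul, smul_eq_mul]
    rw [h1, map_smul, smul_eq_mul, RCLike.re_ofReal_mul]
    rfl

variable {m : WAP 𝕂 S →ₗ[𝕂] 𝕂} (hm : IsLIM m) (T : S → X → X)
    (hmul : ∀ s t x, T (s * t) x = T s (T t x))
    (hG : IsCSemi (closure (range T))) (x0 : X) (hc : Continuous fun s : S => T s x0)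

include hm in
lemma lam_nonneg (h : C(X, ℝ)) (hh : ∀ y, 0 ≤ h y) : 0 ≤ lam m T hmul hG x0 hc h := by
  obtain ⟨r, hr, hr2⟩ := hm.nonneg ⟨Psi (𝕂 := 𝕂) T x0 hc h, Psi_mem_WAP T hmul hG x0 hc h⟩
    (fun s => ⟨h (T s x0), hh _, rfl⟩)
  change 0 ≤ RCLike.re (m ⟨Psi (𝕂 := 𝕂) T x0 hc h, Psi_mem_WAP T hmul hG x0 hc h⟩)
  rw [hr2, RCLike.ofReal_re]
  exact hr

include hm in
lemma lam_one : lam m T hmul hG x0 hc 1 = 1 := by
  have := hm.one ⟨Psi (𝕂 := 𝕂) T x0 hc 1, Psi_mem_WAP T hmul hG x0 hc 1⟩ (fun s => by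
    change (((1 : ℝ)) : 𝕂) = 1
    exact RCLike.ofReal_one)
  change RCLike.re (m ⟨Psi (𝕂 := 𝕂) T x0 hc 1, Psi_mem_WAP T hmul hG x0 hc 1⟩) = 1
  rw [this, RCLike.one_re]

include hm in
lemma lam_T (a : S) (h : C(X, ℝ)) (hca : Continuous (T a)) :
    lam m T hmul hG x0 hc (h.comp ⟨T a, hca⟩) = lam m T hmul hG x0 hc h := by
  have := hm.invariant a ⟨Psi (𝕂 := 𝕂) T x0 hc h, Psi_mem_WAP T hmul hG x0 hc h⟩
    ⟨Psi (𝕂 := 𝕂) T x0 hc (h.comp ⟨T a, hca⟩), Psi_mem_WAP T hmul hG x0 hc _⟩ (fun t => by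
      change ((h (T a (T t x0)) : ℝ) : 𝕂) = ((h (T (a * t) x0) : ℝ) : 𝕂)
      rw [hmul])
  change RCLike.re (m _) = RCLike.re (m _)
  rw [this]

include hm in
lemma lam_bound (h : C(X, ℝ)) : ‖lam m T hmul hG x0 hc h‖ ≤ 1 * ‖h‖ := by
  have h1 : ∀ k : C(X, ℝ), lam m T hmul hG x0 hc k ≤ ‖k‖ := by
    intro k
    have h2 := lam_nonneg hm T hmul hG x0 hc (‖k‖ • 1 - k) (fun y => by
      have := (le_abs_self _).trans (k.norm_coe_le_norm y)
      simp only [ContinuousMap.sub_apply, ContinuousMap.smul_apply, ContinuousMap.one_apply,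
        smul_eq_mul, mul_one]
      linarith)
    rw [map_sub, map_smul, lam_one hm, smul_eq_mul, mul_one] at h2
    linarith
  rw [one_mul, Real.norm_eq_abs, abs_le]
  have h3 := h1 (-h)
  rw [map_neg, norm_neg] at h3
  exact ⟨by linarith, h1 h⟩

include hm in
lemma lam_comp (σ : closure (range T)) (h : C(X, ℝ)) :
    lam m T hmul hG x0 hc (compMap hG h σ) = lam m T hmul hG x0 hc h := by
  let L : C(X, ℝ) →L[ℝ] ℝ := (lam m T hmul hG x0 hc).mkContinuous 1 (lam_bound hm T hmul hG x0 hc)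
  have hcont := functional_comp_continuous hG h L
  have hclosed : IsClosed {σ : closure (range T) | L (compMap hG h σ) = L h} :=
    isClosed_eq hcont continuous_const
  have hd : Dense {σ : closure (range T) | σ.1 ∈ range T} := by
    intro σ
    rw [closure_subtype]
    refine closure_mono ?_ σ.2
    rintro _ ⟨a, rfl⟩
    exact ⟨⟨T a, subset_closure ⟨a, rfl⟩⟩, ⟨a, rfl⟩, rfl⟩
  have hsub : {σ : closure (range T) | σ.1 ∈ range T} ⊆
      {σ : closure (range T) | L (compMap hG h σ) = L h} := by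
    rintro ⟨_, hσ⟩ ⟨a, rfl⟩
    exact lam_T hm T hmul hG x0 hc a h _
  have := closure_minimal hsub hclosed (hd σ)
  exact this

end Mean

section Loc

variable {𝕜 E ι : Type*} [RCLike 𝕜] [AddCommGroup E] [Module 𝕜 E] [Module ℝ E]
  [IsScalarTower ℝ 𝕜 E] [TopologicalSpace E] [IsTopologicalAddGroup E] [ContinuousSMul 𝕜 E]
  [T2Space E]

omit [T2Space E] in
/-- closed convex sets are weakly closed -/
lemma isClosed_weak [LocallyConvexSpace ℝ E] {s : Set E} (hs : Convex ℝ s) (hc : IsClosed s) :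
    IsClosed {w : WeakSpace 𝕜 E | (toWeakSpace 𝕜 E).symm w ∈ s} := by
  have h1 := hs.toWeakSpace_closure 𝕜
  rw [hc.closure_eq] at h1
  have h2 : {w : WeakSpace 𝕜 E | (toWeakSpace 𝕜 E).symm w ∈ s} = toWeakSpace 𝕜 E '' s := by
    ext w
    constructor
    · intro hw
      exact ⟨_, hw, (toWeakSpace 𝕜 E).apply_symm_apply w⟩
    · rintro ⟨v, hv, rfl⟩
      change (toWeakSpace 𝕜 E).symm (toWeakSpace 𝕜 E v) ∈ s
      rw [LinearEquiv.symm_apply_apply]
      exact hv
  rw [h2, h1]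
  exact isClosed_closure

lemma isClosed_ball (Q : ι → Seminorm 𝕜 E) (hQ : WithSeminorms Q) (i : ι) (r : ℝ) :
    IsClosed {w : WeakSpace 𝕜 E | Q i ((toWeakSpace 𝕜 E).symm w) ≤ r} := by
  have : LocallyConvexSpace ℝ E := by
    exact hQ.toLocallyConvexSpace
  refine isClosed_weak (s := {v : E | Q i v ≤ r}) ?_ ?_
  · have h1 := ((Q i).restrictScalars ℝ).convexOn.convex_le r
    simpa using h1
  · exact isClosed_le (hQ.continuous_seminorm i) continuous_const

/-- countable sets are separable for the seminorms, even after taking the weak closure -/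
lemma countable_cover (Q : ι → Seminorm 𝕜 E) (hQ : WithSeminorms Q) (i : ι)
    (C : Set (WeakSpace 𝕜 E)) (A : Set C) (hA : A.Countable) (ε : ℝ) (hε : 0 < ε) :
    ∃ 𝒟 : Set (Set C), 𝒟.Countable ∧
      (∀ B ∈ 𝒟, IsClosed B ∧ ∀ x ∈ B, ∀ y ∈ B,
        Q i ((toWeakSpace 𝕜 E).symm (x : WeakSpace 𝕜 E) -
          (toWeakSpace 𝕜 E).symm (y : WeakSpace 𝕜 E)) ≤ ε) ∧ closure A ⊆ ⋃₀ 𝒟 := by
  have : LocallyConvexSpace ℝ E := hQ.toLocallyConvexSpace
  have : ContinuousSMul ℝ E := IsScalarTower.continuousSMul 𝕜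
  let e : C → E := fun x => (toWeakSpace 𝕜 E).symm (x : WeakSpace 𝕜 E)
  let V : Submodule ℝ E := (Submodule.span ℝ (e '' A)).topologicalClosure
  have hVsep : TopologicalSpace.IsSeparable (V : Set E) := by
    have h1 : TopologicalSpace.IsSeparable (e '' A) := (hA.image e).isSeparable
    have h2 := h1.span (R := ℝ)
    have h3 := h2.closure
    rwa [← Submodule.topologicalClosure_coe] at h3
  have hVclosed : IsClosed {w : WeakSpace 𝕜 E | (toWeakSpace 𝕜 E).symm w ∈ (V : Set E)} :=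
    isClosed_weak V.convex (Submodule.isClosed_topologicalClosure _)
  have hV : closure A ⊆ {x : C | e x ∈ (V : Set E)} := by
    refine closure_minimal ?_ (hVclosed.preimage continuous_subtype_val)
    intro x hx
    exact Submodule.le_topologicalClosure _ (Submodule.subset_span ⟨x, hx, rfl⟩)
  obtain ⟨D, hD, hVD⟩ := hVsep
  refine ⟨(fun v : E => {w : C | Q i (e w - v) ≤ ε / 2}) '' D, hD.image _, ?_, ?_⟩
  · rintro _ ⟨v, hv, rfl⟩
    refine ⟨?_, fun x hx y hy => ?_⟩
    · have h1 := isClosed_weak (𝕜 := 𝕜) (s := {u : E | Q i (u - v) ≤ ε / 2}) ?_ ?_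
      · exact h1.preimage continuous_subtype_val
      · have h1 : {u : E | Q i (u - v) ≤ ε / 2} = ((Q i).restrictScalars ℝ).closedBall v (ε / 2) := by
          ext u
          simp only [mem_ofPred_eq, Seminorm.mem_closedBall]
          rfl
        rw [h1]
        exact Seminorm.convex_closedBall _ _ _
      · exact isClosed_le ((hQ.continuous_seminorm i).comp (continuous_id.sub continuous_const))
          continuous_const
    · have h1 : e x - e y = (e x - v) - (e y - v) := by abel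
      change Q i (e x - e y) ≤ ε
      rw [h1]
      have h2 := map_sub_le_add (Q i) (e x - v) (e y - v)
      have h3 : Q i (e x - v) ≤ ε / 2 := hx
      have h4 : Q i (e y - v) ≤ ε / 2 := hy
      linarith
  · intro x hx
    have h1 : e x ∈ closure D := hVD (hV hx)
    have h2 : IsOpen {u : E | Q i (e x - u) < ε / 2} :=
      isOpen_lt ((hQ.continuous_seminorm i).comp (continuous_const.sub continuous_id))
        continuous_const
    obtain ⟨v, hv1, hv2⟩ := mem_closure_iff.1 h1 _ h2 (by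
      change Q i (e x - e x) < ε / 2
      rw [sub_self, map_zero]
      linarith)
    refine ⟨_, ⟨v, hv2, rfl⟩, ?_⟩
    have hv3 : Q i (e x - v) < ε / 2 := hv1
    exact hv3.le

theorem fixed_point {𝕂 : Type*} [RCLike 𝕂] {S : Type*} [Semigroup S] [TopologicalSpace S]
    [Semitopological S] (m : WAP 𝕂 S →ₗ[𝕂] 𝕂) (hm : IsLIM m)
    (Q : ι → Seminorm 𝕜 E) (hQ : WithSeminorms Q)
    (C : Set (WeakSpace 𝕜 E)) (hC : IsCompact C) (hne : C.Nonempty) (hconv : Convex ℝ C)
    (T : S → C → C) (hT : IsGoodRep Q C T) : ∃ x : C, ∀ s, T s x = x := by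
  classical
  have hlc : LocallyConvexSpace ℝ E := hQ.toLocallyConvexSpace
  have hcs : ContinuousSMul ℝ E := IsScalarTower.continuousSMul 𝕜
  have hsd : SeparatingDual 𝕜 E := by
    refine ⟨fun x hx => ?_⟩
    obtain ⟨f, hf⟩ := RCLike.geometric_hahn_banach_point_point (𝕜 := 𝕜) hx
    exact ⟨f, fun h0 => by rw [h0, map_zero] at hf; simp at hf⟩
  have hcomp : CompactSpace C := isCompact_iff_compactSpace.1 hC
  have hneC : Nonempty C := hne.to_subtype
  -- S is nonempty
  have hSne : Nonempty S := by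
    by_contra hcon
    rw [not_nonempty_iff] at hcon
    have h1 := hm.one 0 (fun s => (hcon.false s).elim)
    rw [map_zero] at h1
    exact zero_ne_one h1
  let e : C → E := fun x => (toWeakSpace 𝕜 E).symm (x : WeakSpace 𝕜 E)
  have he : Function.Injective e := fun x y hxy =>
    Subtype.ext ((toWeakSpace 𝕜 E).symm.injective hxy)
  -- the closure semigroup
  have hG : IsCSemi (closure (range T)) := by
    refine isCSemi_closure _ (range_nonempty T) ?_ hT.quasi_equicontinuous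
    rintro _ ⟨s, rfl⟩ _ ⟨t, rfl⟩
    exact ⟨s * t, funext fun x => hT.mul s t x⟩
  have hnonexp : ∀ i, ∀ g ∈ closure (range T), ∀ x y : C,
      Q i (e (g x) - e (g y)) ≤ Q i (e x - e y) := by
    intro i g hg x y
    have h1 : IsClosed {g : C → C | Q i (e (g x) - e (g y)) ≤ Q i (e x - e y)} := by
      have h2 : Continuous fun g : C → C => ((g x : WeakSpace 𝕜 E) - (g y : WeakSpace 𝕜 E)) :=
        (continuous_subtype_val.comp (continuous_apply x)).sub
          (continuous_subtype_val.comp (continuous_apply y))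
      exact (isClosed_ball Q hQ i (Q i (e x - e y))).preimage h2
    refine closure_minimal ?_ h1 hg
    rintro _ ⟨s, rfl⟩
    exact hT.nonexpansive i s x y
  obtain ⟨K, hK⟩ := exists_minimal e he (closure (range T)) hneC (by
    have h1 : range e = (toWeakSpace 𝕜 E).symm '' C := by
      ext v
      constructor
      · rintro ⟨x, rfl⟩
        exact ⟨x, x.2, rfl⟩
      · rintro ⟨x, hx, rfl⟩
        exact ⟨⟨x, hx⟩, rfl⟩
    rw [h1]
    exact hconv.linear_image (((toWeakSpace 𝕜 E).symm : WeakSpace 𝕜 E →ₗ[𝕜] E).restrictScalars ℝ))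
  obtain ⟨x0, hx0⟩ := hK.prop.1
  have hc := hT.continuous_left x0
  let l := lam m T hT.mul hG x0 hc
  have hpos := lam_nonneg hm T hT.mul hG x0 hc
  have hF : ∀ g ∈ closure (range T), g '' supp l = supp l := fun g hg =>
    supp_invariant hpos ⟨g, hG.cont g hg⟩ (fun h => lam_comp hm T hT.mul hG x0 hc ⟨g, hg⟩ h)
  have hFK : supp l ⊆ K := by
    refine supp_subset hK.prop.2.1 (fun h hh => ?_)
    have h1 : Psi (𝕂 := 𝕂) T x0 hc h = 0 := by
      ext t
      change ((h (T t x0) : ℝ) : 𝕂) = 0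
      rw [hh _ (hK.prop.2.2.2 _ (subset_closure ⟨t, rfl⟩) hx0), RCLike.ofReal_zero]
    have h2 : (⟨Psi (𝕂 := 𝕂) T x0 hc h, Psi_mem_WAP T hT.mul hG x0 hc h⟩ : WAP 𝕂 S) = 0 :=
      Subtype.ext h1
    change RCLike.re (m _) = 0
    rw [h2, map_zero, map_zero]
  obtain ⟨x, hx⟩ := supp_nonempty hpos (lam_one hm T hT.mul hG x0 hc)
  have hconst : ∀ g ∈ closure (range T), ∀ h ∈ closure (range T), g x = h x := by
    intro g hg h hh
    apply he
    by_contra hcon
    obtain ⟨i, hi⟩ := hQ.separating_of_T1 (e (g x) - e (h x)) (sub_ne_zero.2 hcon)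
    refine hi ?_
    refine demarr e ((Q i).restrictScalars ℝ) ?_ ?_ hG (hnonexp i) hF hFK hK hx hg hh
    · intro z r
      have h1 := isClosed_weak (𝕜 := 𝕜) (s := {u : E | Q i (u - z) ≤ r}) ?_ ?_
      · exact h1.preimage continuous_subtype_val
      · have h1 : {u : E | Q i (u - z) ≤ r} = ((Q i).restrictScalars ℝ).closedBall z r := by
          ext u
          simp only [mem_ofPred_eq, Seminorm.mem_closedBall]
          rfl
        rw [h1]
        exact Seminorm.convex_closedBall _ _ _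
      · exact isClosed_le ((hQ.continuous_seminorm i).comp (continuous_id.sub continuous_const))
          continuous_const
    · intro A hA ε hε
      exact countable_cover Q hQ i C A hA ε hε
  obtain ⟨g, hg⟩ := hG.nonempty
  refine ⟨g x, fun s => ?_⟩
  exact hconst (T s ∘ g) (hG.comp _ (subset_closure ⟨s, rfl⟩) _ hg) g hg

end Loc

end Pool.Agent.L7h51.WapFix
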